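import Pool.Agent.Q161.ESG.JInv3

/-!
# The ranks of the elliptic curves with given `j`-invariants, in the three orderings

Let `J` be a finite set of rational numbers, different from `0` and `1728`, such that the elliptic curves
over `ℚ` with `j`-invariant in `J` have no rational points of order two.  Order the elliptic curves over
`ℚ` with `j`-invariant in `J` by the naive height, by the minimal discriminant or by the conductor.  In
each of these orderings all exponential moments of the rank are bounded: for every `k` the average of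
`2^(k rank)` over the curves of size at most `X` is bounded by a constant, for all `X`.

This follows from the bounds for all moments of the 2-Selmer groups of all quadratic twists (project ESM,
`Pool/Agent/Q161/ESM`): the curves with one `j`-invariant are the quadratic twists by the squarefree
integers `D` of one curve, and the three invariants are of the order of magnitude of `|D|^6`, `|D|^6`, `|D|^2`.
-/

set_option autoImplicit false

namespace Pool.Agent.Results.MP_6073f3_nt.AllMomentsFixedJ

open Finset Pool.Agent.Q161.ESG.JI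

/-- `J` is a finite set of rational numbers, and every `j` in `J` is the `j`-invariant of a curve
`y² = x³ + A x + B`, `A, B` different from zero (so `j` is not `0` or `1728`), without rational points of order two
(this does not depend on the choice of the curve with this `j`-invariant) -/
def Good (J : Finset ℚ) : Prop := ∀ j ∈ J, ∃ q : ℤ × ℤ, Disc q ≠ 0 ∧ jinv q = j ∧ q.1 ≠ 0 ∧ q.2 ≠ 0 ∧
  ∀ x : ℚ, x ^ 3 + (q.1 : ℚ) * x + (q.2 : ℚ) ≠ 0

open Classical in
/-- Let `I` be one of the three orderings, `J` a good finite set of `j`-invariants, `k ≥ 0`.  There is a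
`C` such that for all `X` the set of the elliptic curves over `ℚ` with `j(E) ∈ J` and `I(E) ≤ X` is a finite set
`S` and, `#` its order, (1) `∑_(E ∈ S) 2^(k rank E) ≤ C #`; (2) for all `n` the number of the `E ∈ S` of rank at least
`n` is at most `C # / 2^(k n)`; (3) for every nonempty subset `T` of `S`
`k ∑_(E ∈ T) rank E ≤ |T| log₂ (C # / |T|)`; (4) `∑_(E ∈ S) (rank E)^k ≤ C #`. -/
theorem result (I : ℤ × ℤ → ℝ) (hI : Ordering I) (J : Finset ℚ) (hJ : Good J) (k : ℕ) :
    ∃ C : ℝ, 0 < C ∧ ∀ X : ℝ, ∃ S : Finset (ℤ × ℤ), (S : Set (ℤ × ℤ)) = Fam I J X ∧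
      (∑ q ∈ S, (2 : ℝ) ^ (k * rank q) ≤ C * S.card) ∧
      (∀ n : ℕ, ((S.filter (fun q => n ≤ rank q)).card : ℝ) ≤ C * S.card / 2 ^ (k * n)) ∧
      (∀ T : Finset (ℤ × ℤ), T ⊆ S → T.Nonempty →
        k * ∑ q ∈ T, (rank q : ℝ) ≤ T.card * Real.logb 2 (C * S.card / T.card)) ∧
      ∑ q ∈ S, (rank q : ℝ) ^ k ≤ C * S.card := by
  obtain ⟨C, hC, h⟩ := fin I hI J (adm_of hJ) k
  refine ⟨C, hC, fun X => ?_⟩
  obtain ⟨S, hS, h3⟩ := h X
  have hT : ∀ T : Finset (ℤ × ℤ), T ⊆ S → ∑ q ∈ T, (2 : ℝ) ^ (k * rank q) ≤ C * S.card :=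
    fun T hT => le_trans (sum_le_sum_of_subset_of_nonneg hT (fun _ _ _ => by positivity)) h3
  refine ⟨S, hS, h3, fun n => ?_, fun T hTS hne => ?_, ?_⟩
  · rw [le_div_iff₀ (by positivity)]
    refine le_trans ?_ (hT (S.filter (fun q => n ≤ rank q)) (filter_subset _ _))
    rw [← nsmul_eq_mul]
    refine card_nsmul_le_sum _ _ _ fun q hq => ?_
    exact pow_le_pow_right₀ one_le_two (Nat.mul_le_mul_left k (mem_filter.1 hq).2)
  · have h6 := Pool.Agent.Q161.EA.jensen T (fun q => k * rank q) hne _ (hT T hTS)
    rw [mul_sum]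
    refine le_trans (le_of_eq (sum_congr rfl fun q _ => ?_)) h6
    push_cast
    rfl
  · refine le_trans (sum_le_sum fun q _ => ?_) h3
    rw [mul_comm k, pow_mul]
    refine pow_le_pow_left₀ (Nat.cast_nonneg _) ?_ k
    exact_mod_cast (Nat.lt_two_pow_self (n := rank q)).le

end Pool.Agent.Results.MP_6073f3_nt.AllMomentsFixedJ
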