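import Mathlib
import Pool.Agent.Q269.IsoFour.Four
import Pool.Agent.Q269.FieldFour.Rank
import Pool.Agent.Q269.CondFour.Fam

/-!
# The elliptic curves with a rational cyclic subgroup of order 4 ordered by the conductor

All the elliptic curves over `ℚ` with a rational cyclic subgroup of order 4 (any reduction, all
quadratic twists; usually the rational torsion has order two), ordered by the conductor `N_E ≤ N`,
with `|Disc| ≤ N ^ K` for an arbitrary constant `K ≥ 4`. There is a set `Z` of curves, of density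
zero in all these families, off which all the moments of `2 ^ rank` are bounded, for the curves and
for their quadratic twists by `t`, uniformly in `t` up to a factor `C ^ ω(t)`. The upper density of
the curves with `rank + corank Ш[2 ^ ∞] ≥ r` is `o (A ^ (-r))` for every `A`.
-/

set_option autoImplicit false

namespace Pool.Agent.Results.MP_6073f3_nt.CyclicFourConductor

open Filter Finset
open Pool.Agent.TH841.SH.D (HasDiv)

/-- the curve `y² = x³ + A x + B` over the field `K` -/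
def EK (K : Type) [Field K] (A B : ℤ) : WeierstrassCurve K := ⟨0, 0, 0, (A : K), (B : K)⟩

/-- the curve `y² = x³ + A x + B` over `ℚ`, `q = (A, B)` -/
def E (q : ℤ × ℤ) : WeierstrassCurve ℚ := EK ℚ q.1 q.2

/-- the quadratic twist by `t` of the curve `y² = x³ + A x + B` -/
def twist (t : ℤ) (q : ℤ × ℤ) : WeierstrassCurve ℚ := EK ℚ (t ^ 2 * q.1) (t ^ 3 * q.2)

/-- the rank of the group of the rational points -/
noncomputable def rank (W : WeierstrassCurve ℚ) : ℕ := Module.finrank ℤ W.toAffine.Point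

/-- the discriminant of the model `y² = x³ + A x + B` is `- 16 Disc` -/
def Disc (q : ℤ × ℤ) : ℤ := 4 * q.1 ^ 3 + 27 * q.2 ^ 2

/-- There is a complex point `P` of order 4 with a rational abscissa on `y² = x³ + A x + B`. As the
elements of order 4 of the group generated by `P` are `P` and `-P`, and these are the points of the
curve with the abscissa of `P`, this says that the cyclic group of order 4 generated by `P` is
stable under the Galois group, so that it is a rational cyclic subgroup of order 4 of the curve. -/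
def HasCyclicFour (q : ℤ × ℤ) : Prop :=
  ∃ (x : ℚ) (y : ℂ) (h : (EK ℂ q.1 q.2).toAffine.Nonsingular (x : ℂ) y),
    addOrderOf (WeierstrassCurve.Affine.Point.some (x : ℂ) y h) = 4

/-- The pair `q = (A, B)` is the minimal model of an elliptic curve with a rational cyclic subgroup
of order 4. Every elliptic curve over `ℚ` with such a subgroup is isomorphic to `E q` for exactly
one such `q`. -/
def Good (q : ℤ × ℤ) : Prop :=
  Disc q ≠ 0 ∧ (∀ p : ℕ, p.Prime → ¬ ((p : ℤ) ^ 4 ∣ q.1 ∧ (p : ℤ) ^ 6 ∣ q.2)) ∧ HasCyclicFour q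

/-- the prime-to-6 part of the conductor of a minimal model: the product over the primes `p ≥ 5`
dividing `Disc` of `p` (multiplicative reduction: `p ∤ A`) or `p²` (additive reduction: `p ∣ A`) -/
def Cond6 (q : ℤ × ℤ) : ℕ :=
  ∏ p ∈ (Disc q).natAbs.primeFactors.filter (fun p => 5 ≤ p), if (p : ℤ) ∣ q.1 then p ^ 2 else p

/-- the family: the minimal models of the elliptic curves with a rational cyclic subgroup of order
four, with `c ≤ N` and `|Disc| ≤ N ^ K` -/
def Fam (c : ℤ × ℤ → ℝ) (K N : ℝ) : Set (ℤ × ℤ) :=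
  {q | Good q ∧ c q ≤ N ∧ |((Disc q : ℤ) : ℝ)| ≤ N ^ K}

/-- the proportion in the family of the curves that belong to the set `T` -/
noncomputable def proportion (c : ℤ × ℤ → ℝ) (K : ℝ) (T : Set (ℤ × ℤ)) (N : ℝ) : ℝ :=
  ((Fam c K N ∩ T).ncard : ℝ) / ((Fam c K N).ncard : ℝ)

/-- the curves with `rank + corank Ш[2 ^ ∞] ≥ r`: `Ш` has a subgroup `(ℚ₂ / ℤ₂) ^ m` with
`r ≤ rank + m` -/
def High (r : ℕ) : Set (ℤ × ℤ) := {q | ∃ m : ℕ, HasDiv (E q) m ∧ r ≤ rank (E q) + m}

/-! ### Proofs -/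

open Pool.Agent.Q269.CondFour (B4 CL4 F4c Gd nu fin4 card4 main4 exists_Gd corank_le)

open Pool.Agent.TH841.SH (Bd)

lemma good_iff (q : ℤ × ℤ) : Good q ↔ B4 q := by
  constructor
  · rintro ⟨h1, h2, h3⟩
    exact ⟨h1, h2, (Pool.Agent.Q269.IsoFour.has4_iff h1).1 h3⟩
  · rintro ⟨h1, h2, h3⟩
    exact ⟨h1, h2, (Pool.Agent.Q269.IsoFour.has4_iff h1).2 h3⟩

lemma fam_eq (c : ℤ × ℤ → ℝ) (K N : ℝ) : Fam c K N = F4c c K N := by
  ext q
  constructor
  · rintro ⟨h1, h2, h3⟩
    exact ⟨(good_iff q).1 h1, h2, h3⟩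
  · rintro ⟨h1, h2, h3⟩
    exact ⟨(good_iff q).2 h1, h2, h3⟩

open Classical in
lemma proportion_eq {c : ℤ × ℤ → ℝ} {K N : ℝ} {S : Finset (ℤ × ℤ)}
    (hS : (S : Set (ℤ × ℤ)) = Fam c K N) (T : Set (ℤ × ℤ)) :
    proportion c K T N = ((S.filter fun q => q ∈ T).card : ℝ) / S.card := by
  unfold proportion
  have h1 : Fam c K N ∩ T = ((S.filter fun q => q ∈ T : Finset (ℤ × ℤ)) : Set (ℤ × ℤ)) := by
    rw [← hS]
    ext q
    simp
  rw [h1, Set.ncard_coe_finset, ← hS, Set.ncard_coe_finset]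

lemma proportion_nonneg (c : ℤ × ℤ → ℝ) (K : ℝ) (T : Set (ℤ × ℤ)) (N : ℝ) :
    0 ≤ proportion c K T N := by
  unfold proportion
  positivity

/-- `limsup` is at most `x` if the proportion is eventually at most `x + ε` -/
lemma limsup_le {c : ℤ × ℤ → ℝ} {K : ℝ} {T : Set (ℤ × ℤ)} {x : ℝ}
    (h : ∀ ε : ℝ, 0 < ε → ∀ᶠ N in atTop, proportion c K T N ≤ x + ε) :
    limsup (proportion c K T) atTop ≤ x := by
  refine le_of_forall_pos_le_add fun ε hε => ?_
  refine limsup_le_of_le ?_ (h ε hε)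
  refine IsBoundedUnder.isCoboundedUnder_le ?_
  exact isBoundedUnder_of ⟨0, fun N => proportion_nonneg c K T N⟩

lemma limsup_nonneg {c : ℤ × ℤ → ℝ} {K : ℝ} {T : Set (ℤ × ℤ)} {x : ℝ}
    (h : ∀ᶠ N in atTop, proportion c K T N ≤ x) : 0 ≤ limsup (proportion c K T) atTop := by
  refine le_limsup_of_frequently_le (Eventually.frequently
    (Eventually.of_forall fun N => proportion_nonneg c K T N)) ?_
  exact ⟨x, h⟩

/-- **Theorem.** There is a set `Z` of curves such that for every real `K ≥ 4` and every function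
`c` of the minimal models of the elliptic curves with a rational cyclic subgroup of order 4 that
differs from the prime-to-6 part of the conductor by a factor between `1` and `2 ^ 8 * 3 ^ 5` (for
instance `c` = the conductor), with `N₀ = 62208 * 4 * 10 ^ 7`:
1. for `N ≥ N₀` the family `Fam c K N` is finite and its number is between `a N ^ (2/3)` and
`b N ^ (2/3)`, with `a, b > 0` independent of `N`;
2. the proportion in the family of the curves of `Z` tends to `0` as `N → ∞`;
3. for all real `θ > 0` and `A ≥ 0` there is `C` such that for all `N ≥ N₀` and all the nonzero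
integers `t` with `|t| ≤ N ^ A` the sum of `(2 ^ r) ^ θ`, `r` = the rank of the quadratic twist by
`t`, over the curves of the family outside `Z` is at most `C * (16 * 512 ^ θ) ^ ω(t)` times the
number of all the curves of the family, with `ω(t)` = the number of the prime factors of `t`;
4. for every real `A` the upper density of the curves with `rank + corank Ш[2 ^ ∞] ≥ r`, times
`A ^ r`, tends to `0` as `r → ∞`. -/
theorem result : ∃ Z : Set (ℤ × ℤ), ∀ K : ℝ, 4 ≤ K → ∀ c : ℤ × ℤ → ℝ,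
    (∀ q : ℤ × ℤ, Good q → (Cond6 q : ℝ) ≤ c q ∧ c q ≤ 2 ^ 8 * 3 ^ 5 * (Cond6 q : ℝ)) →
    (∃ a b : ℝ, 0 < a ∧ 0 < b ∧ ∀ N : ℝ, 62208 * (4 * 10 ^ 7) ≤ N → (Fam c K N).Finite ∧
      a * N ^ ((2 : ℝ) / 3) ≤ ((Fam c K N).ncard : ℝ) ∧
      ((Fam c K N).ncard : ℝ) ≤ b * N ^ ((2 : ℝ) / 3)) ∧
    Tendsto (proportion c K Z) atTop (nhds 0) ∧
    (∀ θ : ℝ, 0 < θ → ∀ A : ℝ, 0 ≤ A → ∃ C : ℝ, ∀ N : ℝ, 62208 * (4 * 10 ^ 7) ≤ N →
      ∀ t : ℤ, t ≠ 0 → (t.natAbs : ℝ) ≤ N ^ A →
      ∀ S : Finset (ℤ × ℤ), (S : Set (ℤ × ℤ)) = Fam c K N \ Z →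
      ∑ q ∈ S, ((2 : ℝ) ^ rank (twist t q)) ^ θ ≤
        C * (16 * 512 ^ θ) ^ t.natAbs.primeFactors.card * ((Fam c K N).ncard : ℝ)) ∧
    ∀ A : ℝ, Tendsto (fun r : ℕ => A ^ r * limsup (proportion c K (High r)) atTop) atTop
      (nhds 0) := by
  classical
  obtain ⟨n, Z, hn, hmain⟩ := main4
  refine ⟨Z, ?_⟩
  intro K hK c hc
  obtain ⟨hdens, hmom⟩ := hmain K hK
  have hcl : CL4 c := fun q hq => hc q ((good_iff q).2 hq)
  have hfin : ∀ N : ℝ, 62208 * (4 * 10 ^ 7) ≤ N →
      ∃ S : Finset (ℤ × ℤ), (S : Set (ℤ × ℤ)) = Fam c K N :=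
    fun N hN => ⟨(fin4 hcl hK (by linarith)).toFinset, by
      rw [Set.Finite.coe_toFinset, fam_eq]⟩
  -- the rank of a twist and the rank plus the corank
  have htw : ∀ t : ℤ, t ≠ 0 → ∀ q : ℤ × ℤ, ∀ d, Gd q d → B4 q →
      (2 : ℝ) ^ rank (twist t q) ≤ n t (nu d.1) := by
    intro t ht q d hd hb
    have h1 := hn d.1 hd.2.1 hd.2.2.1 hd.2.2.2.1 t ht
    have h2 := Pool.Agent.Q269.FieldFour.rank_FR (F := ℚ) ht hd.1 hb.1 hd.2.1
    have h3 := h1.div_le (r := rank (twist t q)) (δ := 0) (by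
      unfold rank twist EK
      exact h2) (by
      refine ⟨0, fun x y _ => ?_⟩
      funext i
      exact i.elim0)
    rwa [add_zero] at h3
  have hhi : ∀ q : ℤ × ℤ, ∀ d, Gd q d → B4 q → ∀ r : ℕ, q ∈ High r →
      (2 : ℝ) ^ r ≤ n 1 (nu d.1) := by
    rintro q d hd hb r ⟨m, hm, hr⟩
    have h1 := hn d.1 hd.2.1 hd.2.2.1 hd.2.2.2.1 1 one_ne_zero
    have h4 : Pool.Agent.W307.RT.Sh ((1 : ℤ) ^ 2 * d.1.1) ((1 : ℤ) ^ 3 * d.1.2) =
        Pool.Agent.W307.RT.Sh d.1.1 d.1.2 := by
      rw [one_pow, one_pow, one_mul, one_mul]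
    rw [h4] at h1
    have h5 := corank_le hd.1 hb.1 hd.2.1 h1 (q := m) hm hd.2.2.2.2.2
    refine le_trans ?_ h5
    exact pow_le_pow_right₀ (by norm_num) hr
  have hpow : ∀ (B θ : ℝ), (2 : ℝ) ^ θ = B → ∀ r : ℕ, B ^ r = ((2 : ℝ) ^ r) ^ θ := by
    intro B θ h r
    rw [← h, ← Real.rpow_natCast, ← Real.rpow_natCast, ← Real.rpow_mul (by norm_num),
      ← Real.rpow_mul (by norm_num), mul_comm]
  refine ⟨?_, ?_, ?_, ?_⟩
  · obtain ⟨a, b, ha, hb, h⟩ := card4 K hK
    refine ⟨a, b, ha, hb, fun N hN => ?_⟩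
    obtain ⟨S, hS⟩ := hfin N hN
    have h1 := h c hcl N hN S (hS.trans (fam_eq c K N))
    refine ⟨by rw [← hS]; exact S.finite_toSet, ?_⟩
    rwa [← hS, Set.ncard_coe_finset]
  · rw [Metric.tendsto_atTop]
    intro ε hε
    obtain ⟨N0, hN0, h⟩ := hdens (ε / 2) (by positivity)
    refine ⟨N0, fun N hN => ?_⟩
    obtain ⟨S, hS⟩ := hfin N (hN0.trans hN)
    rw [Real.dist_eq, sub_zero, abs_of_nonneg (proportion_nonneg _ _ _ _), proportion_eq hS]
    have h1 := h c hcl N hN S (hS.trans (fam_eq c K N))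
    refine lt_of_le_of_lt (div_le_of_le_mul₀ (Nat.cast_nonneg _) (by positivity) h1) (by linarith)
  · intro θ hθ A hA
    obtain ⟨C, hC, h⟩ := hmom θ hθ A hA
    refine ⟨C, fun N hN t ht htN S' hS' => ?_⟩
    obtain ⟨S, hS⟩ := hfin N hN
    have e : S' = S.filter fun q => q ∉ Z := by
      apply Finset.coe_injective
      rw [hS', ← hS]
      ext q
      simp
    rw [← hS, Set.ncard_coe_finset, e]
    refine h c hcl N hN S (hS.trans (fam_eq c K N)) t ht htN _ (fun q hq d hd => ?_)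
    have hq1 : q ∈ F4c c K N := by rw [← fam_eq, ← hS]; exact mem_coe.2 hq
    exact Real.rpow_le_rpow (by positivity) (htw t ht q d hd hq1.1) hθ.le
  · intro A
    -- the tails
    obtain ⟨B, hB⟩ : ∃ B : ℝ, B = 2 * (|A| + 1) := ⟨_, rfl⟩
    have hB2 : 2 ≤ B := by rw [hB]; linarith [abs_nonneg A]
    have hB0 : 0 < B := by linarith
    obtain ⟨θ, hθ⟩ : ∃ θ : ℝ, θ = Real.logb 2 B := ⟨_, rfl⟩
    have hθ1 : (2 : ℝ) ^ θ = B := by rw [hθ]; exact Real.rpow_logb (by norm_num) (by norm_num) hB0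
    have hθ0 : 0 < θ := by rw [hθ]; exact Real.logb_pos (by norm_num) (by linarith)
    obtain ⟨C, hC, h⟩ := hmom θ hθ0 0 le_rfl
    have htail : ∀ (r : ℕ) (ε : ℝ), 0 < ε → ∀ᶠ N in atTop,
        proportion c K (High r) N ≤ C / B ^ r + ε := by
      intro r ε hε
      obtain ⟨N0, hN0, hd⟩ := hdens ε hε
      refine eventually_atTop.2 ⟨N0, fun N hN => ?_⟩
      obtain ⟨S, hS⟩ := hfin N (hN0.trans hN)
      have hS' := hS.trans (fam_eq c K N)
      rw [proportion_eq hS]
      have hBr : 0 < B ^ r := by positivity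
      have h1 : ((S.filter fun q => q ∈ High r).card : ℝ) ≤
          ((S.filter fun q => q ∈ Z).card : ℝ) +
          ((S.filter fun q => q ∉ Z ∧ q ∈ High r).card : ℝ) := by
        have h2 : (S.filter fun q => q ∈ High r) ⊆ (S.filter fun q => q ∈ Z) ∪
            (S.filter fun q => q ∉ Z ∧ q ∈ High r) := by
          intro q hq
          rw [mem_union, mem_filter, mem_filter]
          obtain ⟨h3, h4⟩ := mem_filter.1 hq
          by_cases hz : q ∈ Z
          · exact Or.inl ⟨h3, hz⟩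
          · exact Or.inr ⟨h3, hz, h4⟩
        exact_mod_cast (card_le_card h2).trans (card_union_le _ _)
      have h2 : ((S.filter fun q => q ∉ Z ∧ q ∈ High r).card : ℝ) * B ^ r ≤ C * S.card := by
        have h3 := h c hcl N (hN0.trans hN) S hS' 1 one_ne_zero (by
          rw [Real.rpow_zero]
          simp) (fun q => if q ∈ High r then B ^ r else 0) (fun q hq d hd => by
            have hq1 : q ∈ F4c c K N := by rw [← hS']; exact mem_coe.2 hq
            split_ifs with hh
            · rw [hpow B θ hθ1]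
              exact Real.rpow_le_rpow (by positivity) (hhi q d hd hq1.1 r hh) hθ0.le
            · have h5 := htw 1 one_ne_zero q d hd hq1.1
              exact Real.rpow_nonneg (le_trans (by positivity) h5) _)
        have h4 : (1 : ℤ).natAbs.primeFactors.card = 0 := by simp
        rw [h4, pow_zero, mul_one] at h3
        refine le_trans (le_of_eq ?_) h3
        rw [← sum_filter, filter_filter, sum_const, nsmul_eq_mul]
      have h3 := hd c hcl N hN S hS'
      refine div_le_of_le_mul₀ (Nat.cast_nonneg _) (by positivity) ?_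
      have h4 : ((S.filter fun q => q ∉ Z ∧ q ∈ High r).card : ℝ) ≤ C / B ^ r * S.card := by
        rw [div_mul_eq_mul_div, le_div_iff₀ hBr]
        exact h2
      calc _ ≤ _ := h1
        _ ≤ ε * S.card + C / B ^ r * S.card := add_le_add h3 h4
        _ = _ := by ring
    have hup : ∀ r : ℕ, limsup (proportion c K (High r)) atTop ≤ C / B ^ r :=
      fun r => limsup_le (htail r)
    have hlo : ∀ r : ℕ, 0 ≤ limsup (proportion c K (High r)) atTop :=
      fun r => limsup_nonneg (htail r 1 one_pos)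
    have hz : Tendsto (fun r : ℕ => C * (1 / 2 : ℝ) ^ r) atTop (nhds 0) := by
      have := (tendsto_pow_atTop_nhds_zero_of_lt_one (show (0 : ℝ) ≤ 1 / 2 by norm_num)
        (by norm_num)).const_mul C
      rwa [mul_zero] at this
    refine squeeze_zero_norm (fun r => ?_) hz
    rw [Real.norm_eq_abs, abs_mul, abs_pow, abs_of_nonneg (hlo r)]
    have hA : |A| ≤ B / 2 := by rw [hB]; linarith
    calc |A| ^ r * limsup (proportion c K (High r)) atTop
        ≤ (B / 2) ^ r * (C / B ^ r) :=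
          mul_le_mul (pow_le_pow_left₀ (abs_nonneg A) hA r) (hup r) (hlo r) (by positivity)
      _ = C * (1 / 2) ^ r := by
          rw [div_pow, div_pow, one_pow]
          have : B ^ r ≠ 0 := by positivity
          field_simp

end Pool.Agent.Results.MP_6073f3_nt.CyclicFourConductor
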