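import Pool.Agent.Q198.CF.A3
import Pool.Agent.Q198.CF.B4
import Pool.Agent.Z705.Fin

/-!
# Limit theorems for rank zero along prime twists, for every start

`E_D` is the quadratic twist by `D` of the modular curve `X_0(14)` (no complex multiplication). Let
`D_1, …, D_m` be ANY distinct elements of the class `Family`: squarefree, any sign, `1` modulo `4`, a square modulo
`7`, all prime factors split completely in `ℚ(√-1, √2, √-7)` or are inert in `ℚ(√2)` and in `ℚ(√-7)`.  No condition is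
put on the ranks, on the groups `Ш` or on the `L`-series of the `E_(D_i)`.  Twist all of them again and again by
the same split primes `p_1, p_2, …`. Let `N_i(K)` be the number of the `j ≤ K` such that `E_(D_i p_1 ⋯ p_j)` has
finitely many rational points and `Ш[2] = 0`; for these curves order of vanishing and rank are both `0`. All densities
below exist, over the boxes of the tuples of different split primes `p_j ≤ X` as `X → ∞` and as iterated natural
densities in `p_K`, …, `p_1`, with the same value. Let `κ = ∏ (1 - 2^-(2i+1)) = 0.419…`.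

1. STRONG LAW OF LARGE NUMBERS. For all `e, η > 0` there is a `K₀` which depends only on `m`, `e`, `η` and on a bound for
   the number of the primes dividing `D_1 ⋯ D_m` such that for every horizon `K₁ ≥ K₀` the tuples
   `(p_1, …, p_(K₁))` with `|N_i(K) / K - κ| < e` for ALL `i` and ALL `K₀ ≤ K ≤ K₁` have density at least `1 - η`.
2. LARGE DEVIATIONS. The density of the tuples such that the frequency of the good twists with `k < j ≤ k + L`
   differs from `κ` by `e` or more for some `i` is at most `2 m exp(-2 e² L) + C 2^ω ρ^k`.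
3. CENTRAL LIMIT THEOREM, jointly. For all real `x_1, …, x_m` the density of the tuples `(p_1, …, p_K)` with
   `N_i(K) ≤ κ K + x_i √(κ (1 - κ) K)` for all `i` tends to `∏ Φ(x_i)` as `K → ∞`: the fluctuations are Gaussian, with
   the variance of coins, and for different starts they are independent.

Inputs: the total variation theorem (`Pool/Agent/Q1/PT`, hand-in `MP_696deb_nt.CoinFlipLaw`); new: `Q198/CF/B1 - B4`.
-/

set_option autoImplicit false

open Finset Filter Topology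

namespace Pool.Agent.Results.MP_6073f3_nt.LimitTheoremsRankZero

/-- coefficients of the twist `E_D : y² = x³ + A D x + B D` of `X_0(14)` -/
def A (D : ℤ) : ℤ := 5805 * D ^ 2

/-- coefficients of the twist `E_D : y² = x³ + A D x + B D` of `X_0(14)` -/
def B (D : ℤ) : ℤ := -285714 * D ^ 3

/-- the curve `E_D` over `ℚ` -/
def E (D : ℤ) : WeierstrassCurve ℚ :=
  { a₁ := 0, a₂ := 0, a₃ := 0, a₄ := (A D : ℚ), a₆ := (B D : ℚ) }

/-- `E_D(ℚ)` is finite and `Ш(E_D/ℚ)` has no element of order two -/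
def RankZeroShaTwo (D : ℤ) : Prop :=
  Finite (E D).toAffine.Point ∧ ∀ x : Pool.Agent.TH841.SH.D.Sha (E D), 2 • x = 0 → x = 0

/-- the rank form of the conjecture for `y² = x³ + a x + b`, and the order of vanishing and the rank are both `0` -/
def BSDRankZero (a b : ℤ) : Prop :=
  4 * a ^ 3 + 27 * b ^ 2 ≠ 0 ∧
    ∃ F : ℂ → ℂ, Differentiable ℂ F ∧
      (∀ s : ℂ, (3 : ℝ) / 2 < s.re →
        HasProd
          (fun p : ℕ => open Classical in
            if p.Prime ∧ ¬ ((p : ℤ) ∣ 2 * (-4 * a ^ 3 - 27 * b ^ 2)) then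
              (1 - ((p : ℂ) - (Nat.card {q : ZMod p × ZMod p //
                  q.2 ^ 2 = q.1 ^ 3 + (a : ZMod p) * q.1 + (b : ZMod p)} : ℂ))
                  * (p : ℂ) ^ (-s) + (p : ℂ) ^ (1 - 2 * s))⁻¹
            else 1)
          (F s)) ∧
      analyticOrderAt F 1 =
        ((Module.finrank ℤ
          (WeierstrassCurve.Affine.Point
            (WeierstrassCurve.toAffine
              ({ a₁ := 0, a₂ := 0, a₃ := 0, a₄ := (a : ℚ), a₆ := (b : ℚ) } :
                WeierstrassCurve ℚ))) : ℕ) : ℕ∞) ∧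
      Module.finrank ℤ
        (WeierstrassCurve.Affine.Point
          (WeierstrassCurve.toAffine
            ({ a₁ := 0, a₂ := 0, a₃ := 0, a₄ := (a : ℚ), a₆ := (b : ℚ) } :
              WeierstrassCurve ℚ))) = 0

/-- primes which split completely in `ℚ(i, √2, √-7)` -/
def Split (p : ℕ) : Prop := p.Prime ∧ p % 8 = 1 ∧ (p % 7 = 1 ∨ p % 7 = 2 ∨ p % 7 = 4)

/-- primes inert in `ℚ(√2)` and in `ℚ(√-7)` -/
def Inert (q : ℕ) : Prop :=
  q.Prime ∧ (q % 8 = 3 ∨ q % 8 = 5) ∧ (q % 7 = 3 ∨ q % 7 = 5 ∨ q % 7 = 6)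

/-- the family of discriminants -/
def Family (D : ℤ) : Prop := Squarefree D ∧ D % 4 = 1 ∧ (D % 7 = 1 ∨ D % 7 = 2 ∨ D % 7 = 4) ∧
  ∀ p : ℕ, p.Prime → (p : ℤ) ∣ D → p ≠ 3 ∧ (Split p ∨ Inert p)

/-- the average of `g(p)` over the split primes `p` which do not divide `N` is `c` -/
def Mean (N : ℕ) (g : ℕ → ℝ) (c : ℝ) : Prop :=
  Tendsto (fun X : ℕ => open Classical in
    (∑ p ∈ (range (X + 1)).filter fun p => Split p ∧ ¬ p ∣ N, g p) /
      (((range (X + 1)).filter fun p => Split p).card : ℝ)) atTop (𝓝 c)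

/-- the iterated average of `F [p_1, …, p_K]` over the split primes `p_1 ∤ N`, `p_2 ∤ N p_1`, …,
`p_K ∤ N p_1 ⋯ p_(K-1)` is `c` (first over `p_K`, at last over `p_1`) -/
def IteratedMean : ℕ → ℕ → (List ℕ → ℝ) → ℝ → Prop
  | 0, _, F, c => c = F []
  | K + 1, N, F, c => ∃ g : ℕ → ℝ,
      (∀ p : ℕ, Split p → ¬ p ∣ N → IteratedMean K (N * p) (fun l => F (p :: l)) (g p)) ∧ Mean N g c

open Classical in
/-- the `K`-tuples of split primes up to `X` -/
noncomputable def tuples (K X : ℕ) : Finset (Fin K → ℕ) :=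
  Fintype.piFinset fun _ : Fin K => (range (X + 1)).filter fun p => Split p

/-- the average of `F [p_1, …, p_K]` over the `K`-tuples of different split primes `p_i ≤ X`, `p_i ∤ N`, tends
to `c` as `X → ∞` -/
def BoxMean (K N : ℕ) (F : List ℕ → ℝ) (c : ℝ) : Prop :=
  Tendsto (fun X : ℕ => open Classical in
    (∑ p ∈ (tuples K X).filter fun p => Function.Injective p ∧ ∀ i, ¬ p i ∣ N, F (List.ofFn p)) /
      ((tuples K X).card : ℝ)) atTop (𝓝 c)

open Classical in
/-- the density of the tuples `[p_1, …, p_K]` of different split primes prime to `N` with the property `P` is `c`, both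
over boxes and as an iterated density -/
def Density (K N : ℕ) (P : List ℕ → Prop) (c : ℝ) : Prop :=
  BoxMean K N (fun l => if P l then 1 else 0) c ∧
    ∀ x : ℝ, IteratedMean K N (fun l => if P l then 1 else 0) x ↔ x = c

open Classical in
/-- the number of the `j < K` such that the twist by `D p_1 ⋯ p_(j+1)` has rank zero and `Ш[2] = 0`, `l = [p_1, …]` -/
noncomputable def count (D : ℤ) (K : ℕ) (l : List ℕ) : ℕ :=
  ((range K).filter fun j => RankZeroShaTwo (D * ((l.take (j + 1)).prod : ℕ))).card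

/-- the product `κ = (1 - 1/2)(1 - 1/8)(1 - 1/32)⋯` -/
noncomputable def κ : ℝ := ∏' i : ℕ, (1 - (1 / 2 : ℝ) ^ (2 * i + 1))

/-- the distribution function of the standard normal law -/
noncomputable def Phi (x : ℝ) : ℝ := (ProbabilityTheory.gaussianReal 0 1).real (Set.Iic x)

theorem iter_iff (K : ℕ) : ∀ (N : ℕ) (F : List ℕ → ℝ) (c : ℝ),
    IteratedMean K N F c ↔ Q198.CF.IteratedMean K N F c := by
  induction K with
  | zero =>
    intro N F c
    exact Iff.rfl
  | succ K ih =>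
    intro N F c
    constructor
    · rintro ⟨g, h1, h2⟩
      exact ⟨g, fun p hp hN => (ih _ _ _).1 (h1 p hp hN), h2⟩
    · rintro ⟨g, h1, h2⟩
      exact ⟨g, fun p hp hN => (ih _ _ _).2 (h1 p hp hN), h2⟩

theorem density_of {K N : ℕ} {P : List ℕ → Prop} {F : List ℕ → ℝ} {c : ℝ}
    (h : Q198.CF.HasMean K N F c) (hF : ∀ l : List ℕ, l.length = K → Q198.CF.AdmL N l →
      (P l → F l = 1) ∧ (¬ P l → F l = 0)) : Density K N P c := by
  classical
  have h1 : Q198.CF.HasMean K N (fun l => if P l then 1 else 0) c := by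
    refine h.congr fun l hl hA => ?_
    by_cases hP : P l
    · rw [if_pos hP]
      exact (hF l hl hA).1 hP
    · rw [if_neg hP]
      exact (hF l hl hA).2 hP
  have e : (fun l => if P l then (1 : ℝ) else 0) =
      fun l => @ite ℝ (P l) (Classical.propDecidable (P l)) 1 0 := by
    funext l
    by_cases hP : P l
    · rw [if_pos hP]
    · rw [if_neg hP]
  rw [e] at h1
  exact ⟨h1.1, fun x => (iter_iff _ _ _ _).trans (h1.2 x)⟩

theorem count_eq {m : ℕ} (D : Fin m → ℤ) {K : ℕ} {l : List ℕ} (hK : K ≤ l.length) (i : Fin m) :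
    Q198.CF.cntL i ((Q198.CF.outs (Q198.CF.good D) 0 l).take K) = count (D i) K l := by
  classical
  rw [Q198.CF.cnt_take_outs _ hK]
  unfold count
  refine congrArg Finset.card (Finset.filter_congr fun j _ => ?_)
  exact ⟨fun h => (Finset.mem_filter.1 h).2, fun h => Finset.mem_filter.2 ⟨mem_univ _, h⟩⟩

theorem count_full {m : ℕ} (D : Fin m → ℤ) {K : ℕ} {l : List ℕ} (hK : l.length = K) (i : Fin m) :
    Q198.CF.cntL i (Q198.CF.outs (Q198.CF.good D) 0 l) = count (D i) K l := by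
  rw [← count_eq D hK.ge i, List.take_of_length_le]
  rw [Q198.CF.outs_length]
  omega

theorem bsd_of {D : ℤ} (hD : D ≠ 0) (h : Y687.WB D) : BSDRankZero (A D) (B D) := by
  obtain ⟨⟨f, hf, hfp, hf1⟩, hfin⟩ := h
  obtain ⟨F, h1, h2, h3, h4⟩ := Y687.rankBSD hf hfp hf1 hfin
  refine ⟨?_, F, h1, h2, ?_, h4⟩
  · have e : 4 * A D ^ 3 + 27 * B D ^ 2 = (4 * 5805 ^ 3 + 27 * 285714 ^ 2) * D ^ 6 := by
      unfold A B
      ring
    rw [e]
    exact mul_ne_zero (by norm_num) (pow_ne_zero 6 hD)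
  · unfold A B
    rw [h3, h4]
    rfl

theorem kappa_bounds : 0 < κ ∧ κ < 1 := by
  have h1 : (0.4194 : ℝ) < κ := Pool.Agent.Y948.CQ.t_C2.2.2.2.1
  have h2 : κ < 0.4195 := Pool.Agent.Y948.CQ.t_C2.2.2.2.2
  constructor <;> linarith

/-- **The theorem.** -/
theorem result (m : ℕ) :
    (∀ (e η : ℝ) (w : ℕ), 0 < e → 0 < η → ∃ K₀ : ℕ, ∀ D : Fin m → ℤ, (∀ i, Family (D i)) →
      Function.Injective D → (∏ i, (D i).natAbs).primeFactors.card ≤ w → ∀ K₁ : ℕ, K₀ ≤ K₁ →
      ∃ c : ℝ, Density K₁ (∏ i, (D i).natAbs) (fun l => ∀ i, ∀ K : ℕ, K₀ ≤ K → K ≤ K₁ →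
        |(count (D i) K l : ℝ) - K * κ| < e * K) c ∧ 1 - η ≤ c) ∧
    (∃ C ρ : ℝ, 0 < ρ ∧ ρ < 1 ∧ ∀ D : Fin m → ℤ, (∀ i, Family (D i)) → Function.Injective D →
      ∀ (k L : ℕ) (e : ℝ), 0 < L → 0 ≤ e → ∃ c : ℝ,
        Density (k + L) (∏ i, (D i).natAbs) (fun l => ∃ i,
          e * L ≤ |((count (D i) (k + L) l : ℝ) - count (D i) k l) - L * κ|) c ∧
        c ≤ 2 * m * Real.exp (-2 * e ^ 2 * L) +
          C * 2 ^ (∏ i, (D i).natAbs).primeFactors.card * ρ ^ k) ∧
    (∀ D : Fin m → ℤ, (∀ i, Family (D i)) → Function.Injective D → ∀ x : Fin m → ℝ,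
      ∃ d : ℕ → ℝ, (∀ K, Density K (∏ i, (D i).natAbs) (fun l => ∀ i,
        (count (D i) K l : ℝ) ≤ K * κ + x i * (√(κ * (1 - κ)) * √(K : ℝ))) (d K)) ∧
      Tendsto d atTop (𝓝 (∏ i, Phi (x i)))) ∧
    ∀ M : ℤ, Family M → RankZeroShaTwo M → BSDRankZero (A M) (B M) := by
  classical
  obtain ⟨C, ρ, hC, h0, h1, hmain⟩ := Q198.CF.core m
  have hN : ∀ D : Fin m → ℤ, (∀ i, Family (D i)) → ∏ i, (D i).natAbs ≠ 0 := fun D hD =>
    Finset.prod_ne_zero_iff.2 fun i _ => Int.natAbs_ne_zero.2 (hD i).1.ne_zero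
  have hnear : ∀ D : Fin m → ℤ, (∀ i, Family (D i)) → Function.Injective D →
      Q198.CF.Near (Q198.CF.good D) (∏ i, (D i).natAbs) κ
        (C * 2 ^ (∏ i, (D i).natAbs).primeFactors.card) ρ := by
    intro D hD hinj k L F hF
    refine hmain D hD hinj _ (hN D hD) (fun r hr => ?_) (fun i => ?_) k L F hF
    · have h1 := Nat.prime_of_mem_primeFactors hr
      obtain ⟨i, -, hi⟩ := (Nat.Prime.prime h1).exists_mem_finset_dvd (Nat.dvd_of_mem_primeFactors hr)
      have h2 : (r : ℤ) ∣ D i := Int.natCast_dvd.2 hi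
      constructor
      · rintro rfl
        have h3 := (hD i).2.1
        have h4 : (2 : ℤ) ∣ D i := h2
        omega
      · rintro rfl
        have h3 := (hD i).2.2.1
        have h4 : (7 : ℤ) ∣ D i := h2
        omega
    · exact Nat.primeFactors_mono (Finset.dvd_prod_of_mem _ (Finset.mem_univ i)) (hN D hD)
  obtain ⟨hκ0, hκ1⟩ := kappa_bounds
  refine ⟨?_, ⟨C, ρ, h0, h1, ?_⟩, ?_, fun M hM hR =>
    bsd_of hM.1.ne_zero (Y687.MQ.WB_D hM ((Q198.CF.rank_iff hM).1 hR))⟩
  · intro e η w he hη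
    obtain ⟨K₀, hK₀⟩ := Q198.CF.near_slln (Fin m) (C := C * 2 ^ w) hκ0 hκ1 h0.le h1 he hη
    refine ⟨K₀, fun D hD hinj hw K₁ hK => ?_⟩
    have hn : Q198.CF.Near (Q198.CF.good D) (∏ i, (D i).natAbs) κ (C * 2 ^ w) ρ := by
      intro k L F hF
      obtain ⟨c, hc1, hc2⟩ := hnear D hD hinj k L F hF
      refine ⟨c, hc1, hc2.trans ?_⟩
      refine mul_le_mul_of_nonneg_right ?_ (by positivity)
      exact mul_le_mul_of_nonneg_left (pow_le_pow_right₀ (by norm_num) hw) hC.le
    obtain ⟨c, hc1, hc2⟩ := hK₀ _ _ hn K₁ hK (fun l => ∀ i, ∀ K : ℕ, K₀ ≤ K → K ≤ K₁ →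
      |(Q198.CF.cntL i ((Q198.CF.outs (Q198.CF.good D) 0 l).take K) : ℝ) - K * κ| < e * K)
      fun l => Iff.rfl
    refine ⟨c, density_of hc1 fun l hl _ => ?_, hc2⟩
    have h2 : (∀ i, ∀ K : ℕ, K₀ ≤ K → K ≤ K₁ → |(count (D i) K l : ℝ) - K * κ| < e * K) ↔
        ∀ i, ∀ K : ℕ, K₀ ≤ K → K ≤ K₁ →
          |(Q198.CF.cntL i ((Q198.CF.outs (Q198.CF.good D) 0 l).take K) : ℝ) - K * κ| < e * K := by
      refine forall_congr' fun i => forall_congr' fun K => forall_congr' fun _ =>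
        forall_congr' fun hK1 => ?_
      rw [count_eq D (hl ▸ hK1) i]
    exact ⟨fun h => if_pos (h2.1 h), fun h => if_neg fun h' => h (h2.2 h')⟩
  · intro D hD hinj k L e hL he
    obtain ⟨c, hc1, hc2⟩ := Q198.CF.near_hoeff (hnear D hD hinj) hκ0 hκ1 k L hL he
    rw [Fintype.card_fin] at hc2
    refine ⟨c, density_of hc1 fun l hl _ => ?_, hc2⟩
    have h2 : (∃ i, e * L ≤ |((count (D i) (k + L) l : ℝ) - count (D i) k l) - L * κ|) ↔
        ∃ i, e * L ≤ |(Q198.CF.cntL i (Q198.CF.outs (Q198.CF.good D) k l) : ℝ) - L * κ| := by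
      refine exists_congr fun i => ?_
      have h3 := Q198.CF.cnt_outs_sub (Q198.CF.good D) (k := k) (l := l) i
      rw [count_full D hl i, count_eq D (by omega) i] at h3
      have h4 : (count (D i) (k + L) l : ℝ) = count (D i) k l +
          Q198.CF.cntL i (Q198.CF.outs (Q198.CF.good D) k l) := by exact_mod_cast h3
      rw [h4, add_sub_cancel_left]
    exact ⟨fun h => if_pos (h2.1 h), fun h => if_neg fun h' => h (h2.2 h')⟩
  · intro D hD hinj x
    obtain ⟨d, hd1, hd2⟩ := Q198.CF.near_clt (hnear D hD hinj) hκ0 hκ1 h0.le h1 x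
    refine ⟨d, fun K => density_of (hd1 K) fun l hl _ => ?_, hd2⟩
    have h2 : (∀ i, (count (D i) K l : ℝ) ≤ K * κ + x i * (√(κ * (1 - κ)) * √(K : ℝ))) ↔
        ∀ i, (Q198.CF.cntL i (Q198.CF.outs (Q198.CF.good D) 0 l) : ℝ) ≤
          K * κ + x i * (√(κ * (1 - κ)) * √(K : ℝ)) := by
      refine forall_congr' fun i => ?_
      rw [count_full D hl i]
    exact ⟨fun h => if_pos (h2.1 h), fun h => if_neg fun h' => h (h2.2 h')⟩

end Pool.Agent.Results.MP_6073f3_nt.LimitTheoremsRankZero
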