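import Pool.Agent.Q283.GM.Sel4
import Pool.Agent.Q283.GM.Eul
import Pool.Agent.Q283.GM.X49

/-!
# The isogeny Selmer groups and the ranks of the twists of `X_0(49)` by the integers whose prime factors
are all congruent to `1` modulo `4`

`E_D : y² = x³ + 21 D x² + 112 D² x` is the quadratic twist by `D` of the curve `X_0(49)`, and
`E_D' : Y² = X³ - 42 D X² - 7 D² X` is the curve which is isogenous to it by the isogeny `φ` with kernel
`{0, (0, 0)}`. The class consists of all the squarefree positive integers `D` whose prime factors are `1`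
modulo `4`.

* For `D` in the class, the Selmer group of `φ : E_D → E_D'` has the order `2 ^ (1 + r(D))`, where `r(D)`
  is the corank of an explicit matrix over `𝔽₂` of quadratic residue symbols with quartic symbols of `-7`
  on the diagonal, and the rank of `E_D(ℚ)` is at most `2 r(D)`.
* The orders of the Selmer groups of the curves `E_{m_1 D}, …, E_{m_M D}`, for different numbers
  `m_1, …, m_M` of the class, have an exact joint law when `D` runs through the class: they are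
  independent, and each of them is `2 ^ (1 + r)` with the probability
  `α_r = κ / ((2 - 1) (4 - 1) ⋯ (2 ^ r - 1))`, where `κ = (1 - 1/2) (1 - 1/8) (1 - 1/32) ⋯`; the sum of
  the `α_r` is `1`.
* So for every `k` the curves `E_{m_1 D}, …, E_{m_M D}` have all ranks `≤ 2 k` for a proportion of the
  `D` of the class which is asymptotically at least `(α_0 + ⋯ + α_k) ^ M`, and
  `1 - (α_0 + ⋯ + α_k) ≤ 1 / ((2 - 1) (4 - 1) ⋯ (2 ^ (k + 1) - 1))`.
-/

set_option autoImplicit false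

open Finset Filter

namespace Pool.Agent.Results.MP_6073f3_nt.SelmerLawTwists

/-- the curve `E_D : y² = x³ + 21 D x² + 112 D² x`, the twist by `D` of `X_0(49)` -/
def E (D : ℤ) : WeierstrassCurve ℚ :=
  { a₁ := 0, a₂ := 21 * (D : ℚ), a₃ := 0, a₄ := 112 * (D : ℚ) ^ 2, a₆ := 0 }

/-- the rank of `E_D(ℚ)` -/
noncomputable def rank (D : ℤ) : ℕ := Module.finrank ℤ (E D).toAffine.Point

/-- `z` is, up to squares, the `X`-coordinate of a point over `F` of the isogenous curve
`E_D' : Y² = X³ - 42 D X² - 7 D² X` -/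
def Loc (F : Type) [Field F] (D z : ℤ) : Prop :=
  ∃ X Y r : F, X ≠ 0 ∧ Y ^ 2 = X ^ 3 - 42 * (D : F) * X ^ 2 - 7 * (D : F) ^ 2 * X ∧
    X = (z : F) * r ^ 2

/-- the Selmer group of the isogeny `φ : E_D → E_D'`, a subgroup of `ℚ*/ℚ*²` which is described by
squarefree integers -/
def Sel (D : ℤ) : Set ℤ :=
  {z | Squarefree z ∧ (∀ (p : ℕ) [Fact p.Prime], Loc ℚ_[p] D z) ∧ Loc ℝ D z}

/-- the class: squarefree, all prime factors `1` modulo `4` -/
def Class (D : ℕ) : Prop := Squarefree D ∧ ∀ p : ℕ, p.Prime → p ∣ D → p % 4 = 1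

/-- the prime factors of `D` which split in `ℚ(√-7)` -/
def S (D : ℕ) : Finset ℕ := D.primeFactors.filter fun p => p % 7 = 1 ∨ p % 7 = 2 ∨ p % 7 = 4

open Classical in
/-- the matrix over `𝔽₂` with rows and columns indexed by `S D`: off the diagonal the entry at
`(p, p')` is `1` if `p'` is not a square modulo `p` and `0` otherwise; on the diagonal it is the number
of the prime factors of `D` different from `p` which are not squares modulo `p`, plus `1` if `-7` is
not a fourth power modulo `p` -/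
noncomputable def R (D : ℕ) : Matrix (S D) (S D) (ZMod 2) := Matrix.of fun i j =>
  if i = j then
    (((D.primeFactors.filter fun r : ℕ => r ≠ (i : ℕ) ∧ ¬ IsSquare (r : ZMod (i : ℕ))).card : ZMod 2) +
      if ∃ y : ZMod (i : ℕ), y ^ 4 = -7 then 0 else 1)
  else if IsSquare ((j : ℕ) : ZMod (i : ℕ)) then 0 else 1

/-- the corank of the matrix `R D` -/
noncomputable def corank (D : ℕ) : ℕ :=
  Module.finrank (ZMod 2) (LinearMap.ker (R D).mulVecLin)

open Classical in
/-- the number of the `D ≤ X` of the class with the property `P` -/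
noncomputable def count (P : ℕ → Prop) (X : ℕ) : ℕ := ((Icc 1 X).filter fun D => Class D ∧ P D).card

/-- the number `κ = (1 - 1/2) (1 - 1/8) (1 - 1/32) ⋯` -/
noncomputable def κ : ℝ := ∏' i : ℕ, (1 - (1 / 2 : ℝ) ^ (2 * i + 1))

/-- the limit law `κ / ((2 - 1) (4 - 1) ⋯ (2 ^ r - 1))` -/
noncomputable def α (r : ℕ) : ℝ := κ / ∏ i ∈ range r, ((2 : ℝ) ^ (i + 1) - 1)

section proof

open Q283.GW Q283.GS
open Q283.XF (nf)
open Q283.GM (rk cR)
open Y687 (DD)
open Y698.SG.Cv (LocI WF)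
open Y700 (VR)
open scoped Classical

lemma class_iff (D : ℕ) : Class D ↔ C4 D := by
  unfold Class C4 CF
  constructor
  · rintro ⟨h1, h2⟩
    exact ⟨h1, fun p hp => ⟨Nat.prime_of_mem_primeFactors hp,
      h2 p (Nat.prime_of_mem_primeFactors hp) (Nat.dvd_of_mem_primeFactors hp)⟩⟩
  · rintro ⟨h1, h2⟩
    exact ⟨h1, fun p hp hd => (h2 p (Nat.mem_primeFactors.2 ⟨hp, hd, h1.ne_zero⟩)).2⟩

lemma E_eq (D : ℤ) : E D = WF ℚ (21 * D) (112 * D ^ 2) := by
  ext
  · rfl
  · show (21 * (D : ℚ)) = ((21 * D : ℤ) : ℚ)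
    push_cast
    ring
  · rfl
  · show (112 * (D : ℚ) ^ 2) = ((112 * D ^ 2 : ℤ) : ℚ)
    push_cast
    ring
  · rfl

lemma loc_iff (F : Type) [Field F] (D z : ℤ) : Loc F D z ↔ LocI F (21 * D) (112 * D ^ 2) z := by
  unfold Loc LocI
  refine exists_congr fun X => exists_congr fun Y => exists_congr fun r => ?_
  have e : X ^ 3 - 42 * (D : F) * X ^ 2 - 7 * (D : F) ^ 2 * X =
      X ^ 3 - 2 * ((21 * D : ℤ) : F) * X ^ 2 +
        (((21 * D : ℤ) : F) ^ 2 - 4 * ((112 * D ^ 2 : ℤ) : F)) * X := by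
    push_cast
    ring
  rw [e]

lemma sel_eq (D : ℤ) : Sel D = SelB D := by
  unfold Sel SelB
  simp only [loc_iff]

lemma loc_sq (F : Type) [Field F] [CharZero F] (D z : ℤ) {k : ℤ} (hk : k ≠ 0) :
    Loc F (D * k ^ 2) z ↔ Loc F D z := by
  have hk' : (k : F) ≠ 0 := by exact_mod_cast hk
  constructor
  · rintro ⟨X, Y, r, h1, h2, h3⟩
    refine ⟨X / k ^ 2, Y / k ^ 3, r / k, div_ne_zero h1 (pow_ne_zero 2 hk'), ?_, ?_⟩
    · push_cast at h2
      field_simp
      linear_combination h2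
    · rw [h3]
      field_simp
  · rintro ⟨X, Y, r, h1, h2, h3⟩
    refine ⟨k ^ 2 * X, k ^ 3 * Y, k * r, mul_ne_zero (pow_ne_zero 2 hk') h1, ?_, ?_⟩
    · push_cast
      linear_combination (k : F) ^ 6 * h2
    · rw [h3]
      ring

lemma sel_sq (D : ℤ) {k : ℤ} (hk : k ≠ 0) : Sel (D * k ^ 2) = Sel D := by
  ext z
  unfold Sel
  simp only [Set.mem_ofPred_eq]
  refine and_congr_right fun _ => and_congr (forall_congr' fun p => forall_congr' fun hp => ?_) ?_
  · exact loc_sq ℚ_[p] D z hk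
  · exact loc_sq ℝ D z hk

lemma rank_sq {D k : ℤ} (hD : D ≠ 0) (hk : k ≠ 0) : rank (D * k ^ 2) = rank D := by
  have hD' : (D : ℚ) ≠ 0 := by exact_mod_cast hD
  have hk' : (k : ℚ) ≠ 0 := by exact_mod_cast hk
  have hΔ : (E D).Δ ≠ 0 := by
    have e : (E D).Δ = 16 * (112 * (D : ℚ) ^ 2) ^ 2 * (-7 * (D : ℚ) ^ 2) := by
      unfold E WeierstrassCurve.Δ WeierstrassCurve.b₂ WeierstrassCurve.b₄ WeierstrassCurve.b₆
        WeierstrassCurve.b₈
      ring
    rw [e]
    refine mul_ne_zero (mul_ne_zero (by norm_num) ?_) ?_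
    · positivity
    · exact mul_ne_zero (by norm_num) (pow_ne_zero 2 hD')
  have hv : VR (E (D * k ^ 2)) (E D) (k : ℚ) 0 0 0 := by
    refine ⟨hk', ?_, ?_, ?_, ?_, ?_⟩
    · show (k : ℚ) * 0 = 0 + 2 * 0
      ring
    · show (k : ℚ) ^ 2 * (21 * (D : ℚ)) = 21 * ((D * k ^ 2 : ℤ) : ℚ) - 0 * 0 + 3 * 0 - 0 ^ 2
      push_cast
      ring
    · show (k : ℚ) ^ 3 * 0 = 0 + 0 * 0 + 2 * 0
      ring
    · show (k : ℚ) ^ 4 * (112 * (D : ℚ) ^ 2) = 112 * ((D * k ^ 2 : ℤ) : ℚ) ^ 2 - 0 * 0 +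
        2 * 0 * (21 * ((D * k ^ 2 : ℤ) : ℚ)) - (0 + 0 * 0) * 0 + 3 * 0 ^ 2 - 2 * 0 * 0
      push_cast
      ring
    · show (k : ℚ) ^ 6 * 0 = 0 +
        0 * (112 * ((D * k ^ 2 : ℤ) : ℚ) ^ 2) + 0 ^ 2 * (21 * ((D * k ^ 2 : ℤ) : ℚ)) +
        0 ^ 3 - 0 * 0 - 0 ^ 2 - 0 * 0 * 0
      ring
  exact ((hv.equiv hΔ).toIntLinearEquiv.finrank_eq).symm

lemma mem_cnt {P : ℕ → Prop} {X D : ℕ} {i : DecidablePred fun D => Class D ∧ P D} :
    D ∈ @Finset.filter ℕ (fun D => Class D ∧ P D) i (Icc 1 X) ↔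
      (1 ≤ D ∧ D ≤ X) ∧ Class D ∧ P D := by
  rw [Finset.mem_filter, Finset.mem_Icc]

lemma pd_eq {T : Finset ℕ} (hT : CF T) : pd T = DD T := (DD_CF hT).symm

lemma rk_corank {D : ℕ} (hD : C4 D) : corank D = rk ρ49.Φ nf D.primeFactors := by
  rw [Q283.GW.rk_eq, ← matR_eq, ← PA_eq hD.2]
  rfl

lemma main_set {T : Finset ℕ} (hT : CF T) :
    (Sel (DD T)).ncard = 2 ^ (1 + rk ρ49.Φ nf T) ∧ rank (DD T) ≤ 2 * rk ρ49.Φ nf T := by
  rw [← pd_eq hT, sel_eq]
  refine ⟨card_SelB hT, ?_⟩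
  unfold rank
  rw [E_eq]
  exact rank_le hT

lemma main_mul {D m : ℕ} (hD : C4 D) (hm : C4 m) :
    (Sel (m * D)).ncard = 2 ^ (1 + rk ρ49.Φ nf (symmDiff D.primeFactors m.primeFactors)) ∧
      rank (m * D) ≤ 2 * rk ρ49.Φ nf (symmDiff D.primeFactors m.primeFactors) := by
  have hk : DD (D.primeFactors ∩ m.primeFactors) ≠ 0 :=
    Y687.JQ.DD_ne fun p hp => (hD.2 p (Finset.mem_inter.1 hp).1).1.ne_zero
  have hne := (hD.2.symmDiff hm.2).ne
  have e : ((m : ℤ) * (D : ℤ)) = DD (symmDiff D.primeFactors m.primeFactors) *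
      DD (D.primeFactors ∩ m.primeFactors) ^ 2 := by
    rw [← Y687.JQ.DD_mul, ← hD.eq, ← hm.eq, mul_comm]
  rw [e, sel_sq _ hk, rank_sq hne hk]
  exact main_set (hD.2.symmDiff hm.2)

lemma mask {M : ℕ} {m : Fin M → ℕ} (hm : ∀ k, Class (m k)) (hinj : Function.Injective m) :
    (∀ k, CF (m k).primeFactors) ∧ (∀ k l, k ≠ l → (m k).primeFactors ≠ (m l).primeFactors) := by
  have h : ∀ k, C4 (m k) := fun k => (class_iff _).1 (hm k)
  refine ⟨fun k => (h k).2, fun k l hkl he => ?_⟩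
  apply hkl
  apply hinj
  have h1 := (h k).eq
  rw [he, ← (h l).eq] at h1
  exact_mod_cast h1

lemma α_eq (r : ℕ) : α r = al r := by
  unfold α al
  have h : ∀ r, Y697.PQ.cf r = (∏ i ∈ range r, ((2 : ℝ) ^ (i + 1) - 1))⁻¹ := by
    intro r
    induction r with
    | zero => simp [Y697.PQ.cf]
    | succ r ih =>
      rw [show Y697.PQ.cf (r + 1) = Y697.PQ.cf r / (2 ^ (r + 1) - 1) from rfl, ih,
        Finset.prod_range_succ, mul_inv, div_eq_mul_inv]
  rw [h, div_eq_mul_inv]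
  rfl

lemma α_tail (k : ℕ) : 1 - ∑ r ∈ range (k + 1), α r ≤
    1 / ∏ i ∈ range (k + 1), ((2 : ℝ) ^ (i + 1) - 1) := by
  have h1 : ∀ r, α r = al r := α_eq
  simp only [h1]
  refine (tail_al k).trans (le_of_eq ?_)
  have h2 := α_eq (k + 1)
  unfold α al at h2
  have hc0 : (0 : ℝ) < Y703.CQ.c2 := lt_trans (by norm_num) Pool.Agent.Y948.CQ.t_C2.2.2.2.1
  have h3 : κ = Y703.CQ.c2 := rfl
  rw [h3, div_eq_mul_inv] at h2
  rw [one_div]
  exact (mul_left_cancel₀ hc0.ne' h2).symm

/-- the joint law -/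
lemma law {M : ℕ} (m : Fin M → ℕ) (hm : ∀ k, Class (m k)) (hinj : Function.Injective m)
    (r : Fin M → ℕ) :
    Tendsto (fun X : ℕ => (count (fun D => ∀ k, (Sel (m k * D)).ncard = 2 ^ (1 + r k)) X : ℝ) /
        (count (fun _ => True) X : ℝ)) atTop (nhds (∏ k, α (r k))) := by
  obtain ⟨h1, h2⟩ := mask hm hinj
  have e : ∏ k, α (r k) = cR r := by
    unfold cR
    exact Finset.prod_congr rfl fun k _ => α_eq (r k)
  rw [e]
  refine (law_CF r (fun k => (m k).primeFactors) h1 h2).congr fun X =>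
    Q283.GW.ratio (fun D => ?_) (fun D => ?_) _
  · constructor
    · rintro ⟨hD, h⟩
      refine ⟨(class_iff D).2 hD, fun k => ?_⟩
      rw [(main_mul hD ((class_iff _).1 (hm k))).1, h k]
    · rintro ⟨hD, h⟩
      have hD' := (class_iff D).1 hD
      refine ⟨hD', fun k => ?_⟩
      have h3 := h k
      rw [(main_mul hD' ((class_iff _).1 (hm k))).1] at h3
      have h4 := Nat.pow_right_injective le_rfl h3
      omega
  · rw [and_true]
    exact (class_iff D).symm

end proof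

/-- **The isogeny Selmer groups and the ranks of the twists of `X_0(49)`.** -/
theorem result :
    -- the order of the Selmer group and the bound for the rank
    (∀ D : ℕ, Class D → (Sel D).ncard = 2 ^ (1 + corank D) ∧ rank D ≤ 2 * corank D) ∧
    -- the joint law for the twists by `m_1 D, …, m_M D`
    (∀ (M : ℕ) (m : Fin M → ℕ), (∀ k, Class (m k)) → Function.Injective m → ∀ r : Fin M → ℕ,
      Tendsto (fun X : ℕ => (count (fun D => ∀ k, (Sel (m k * D)).ncard = 2 ^ (1 + r k)) X : ℝ) /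
        (count (fun _ => True) X : ℝ)) atTop (nhds (∏ k, α (r k)))) ∧
    -- the limit law is a probability law
    HasSum α 1 ∧
    -- the ranks
    (∀ (M : ℕ) (m : Fin M → ℕ), (∀ k, Class (m k)) → Function.Injective m → ∀ k : ℕ, ∀ ε : ℝ, 0 < ε →
      ∀ᶠ X : ℕ in atTop, ((∑ r ∈ range (k + 1), α r) ^ M - ε) * (count (fun _ => True) X : ℝ) ≤
        (count (fun D => ∀ j, rank (m j * D) ≤ 2 * k) X : ℝ)) ∧
    -- the tails
    (∀ k : ℕ, 1 - ∑ r ∈ range (k + 1), α r ≤ 1 / ∏ i ∈ range (k + 1), ((2 : ℝ) ^ (i + 1) - 1)) ∧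
    0.4194 < κ ∧ κ < 0.4195 := by
  classical
  refine ⟨fun D hD => ?_, fun M m hm hinj r => law m hm hinj r, ?_, fun M m hm hinj k ε hε => ?_,
    α_tail, Pool.Agent.Y948.CQ.t_C2.2.2.2.1, Pool.Agent.Y948.CQ.t_C2.2.2.2.2⟩
  · have hC := (class_iff D).1 hD
    rw [rk_corank hC, hC.eq]
    exact main_set hC.2
  · have e : α = Q283.GS.al := funext α_eq
    rw [e]
    exact Q283.GS.hasSum_al
  · have hsum : Tendsto (fun X : ℕ => ∑ r ∈ Fintype.piFinset fun _ : Fin M => range (k + 1),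
        (count (fun D => ∀ j, (Sel (m j * D)).ncard = 2 ^ (1 + r j)) X : ℝ) /
        (count (fun _ => True) X : ℝ)) atTop
        (nhds (∑ r ∈ Fintype.piFinset fun _ : Fin M => range (k + 1), ∏ j, α (r j))) :=
      tendsto_finsetSum _ fun r _ => law m hm hinj r
    have e1 : ∑ r ∈ Fintype.piFinset fun _ : Fin M => range (k + 1), ∏ j, α (r j) =
        (∑ r ∈ range (k + 1), α r) ^ M := by
      rw [← Finset.prod_univ_sum (fun _ : Fin M => range (k + 1)) fun _ r => α r, Finset.prod_const,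
        Finset.card_univ, Fintype.card_fin]
    rw [e1] at hsum
    have h2 := hsum.eventually (lt_mem_nhds (show (∑ r ∈ range (k + 1), α r) ^ M - ε <
      (∑ r ∈ range (k + 1), α r) ^ M by linarith))
    filter_upwards [h2, eventually_ge_atTop 1] with X hX hX1
    have hT : (0 : ℝ) < (count (fun _ => True) X : ℝ) := by
      have : 0 < count (fun _ => True) X := by
        unfold count
        rw [Finset.card_pos]
        refine ⟨1, mem_cnt.2 ⟨⟨le_rfl, hX1⟩, ⟨squarefree_one, ?_⟩, trivial⟩⟩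
        intro p hp hd
        exact absurd (Nat.dvd_one.1 hd) hp.ne_one
      exact_mod_cast this
    rw [← Finset.sum_div, lt_div_iff₀ hT] at hX
    refine hX.le.trans ?_
    have h3 : ∑ r ∈ Fintype.piFinset fun _ : Fin M => range (k + 1),
        count (fun D => ∀ j, (Sel (m j * D)).ncard = 2 ^ (1 + r j)) X ≤
        count (fun D => ∀ j, rank (m j * D) ≤ 2 * k) X := by
      unfold count
      rw [← Finset.card_biUnion]
      · refine Finset.card_le_card fun D hD => ?_
        obtain ⟨r, hr, hD⟩ := Finset.mem_biUnion.1 hD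
        obtain ⟨hD1, hD2, hD3⟩ := mem_cnt.1 hD
        refine mem_cnt.2 ⟨hD1, hD2, fun j => ?_⟩
        obtain ⟨a1, a2⟩ := main_mul ((class_iff D).1 hD2) ((class_iff _).1 (hm j))
        have a3 := hD3 j
        rw [a1] at a3
        have a4 := Nat.pow_right_injective le_rfl a3
        have a5 := Finset.mem_range.1 (Fintype.mem_piFinset.1 hr j)
        refine a2.trans ?_
        omega
      · intro r _ r' _ hrr
        show Disjoint _ _
        rw [Finset.disjoint_left]
        intro D hD hD'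
        apply hrr
        funext j
        have a1 := (mem_cnt.1 hD).2.2 j
        have a2 := (mem_cnt.1 hD').2.2 j
        rw [a1] at a2
        have a3 := Nat.pow_right_injective le_rfl a2
        omega
    exact_mod_cast h3

end Pool.Agent.Results.MP_6073f3_nt.SelmerLawTwists
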